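import Pool.Agent.Helper4.CI.Goals

namespace Mono.CI.P2

open Finset Filter Topology Pointwise Mono Mono.CI

/-- P2. -/
theorem coneSum (h : ConeExp) : ConeSum := by
  intro n D f l S hD hS hdis hf
  have hS' : S = ⋃ δ ∈ D, opn δ := by
    ext x
    rw [hS x]
    simp only [Set.mem_iUnion, exists_prop]
  subst hS'
  have hpair : (D : Set (Finset (Fin n → ℤ))).Pairwise
      (Function.onFun Disjoint fun δ : Finset (Fin n → ℤ) => opn δ) := by
    intro δ hδ δ' hδ' hne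
    rw [Function.onFun, Set.disjoint_left]
    intro x hx hx'
    exact hne (hdis δ hδ δ' hδ' x hx hx')
  have hex : ∀ δ ∈ D, ∀ (ε : ℝ) (x : opn δ), Real.exp (-(ε * f x.1)) =
      Real.exp (-(ε * ∑ a ∈ δ, crd δ (toR x.1) a * f a)) := fun δ hδ ε x => by
    rw [hf δ hδ x.1 x.2]
  have hsum : ∀ ε : ℝ, 0 < ε → ∑' x : (⋃ δ ∈ D, opn δ : Set (Fin n → ℤ)),
      Real.exp (-(ε * f x.1)) =
      ∑ δ ∈ D, ∑' x : opn δ, Real.exp (-(ε * ∑ a ∈ δ, crd δ (toR x.1) a * f a)) := by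
    intro ε hε
    rw [Summable.tsum_finset_bUnion_disjoint (f := fun x => Real.exp (-(ε * f x))) hpair]
    · refine Finset.sum_congr rfl fun δ hδ => tsum_congr fun x => hex δ hδ ε x
    · intro δ hδ
      have h1 := (h n δ (hD δ hδ).1 f (hD δ hδ).2.2).1 ε hε
      refine h1.congr fun x => ?_
      exact (hex δ hδ ε x).symm
  have hlim : Tendsto (fun ε : ℝ => ∑ δ ∈ D, ε ^ (l - δ.card) * (ε ^ δ.card * ∑' x : opn δ,
      Real.exp (-(ε * ∑ a ∈ δ, crd δ (toR x.1) a * f a)))) (𝓝[>] 0)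
      (𝓝 (∑ δ ∈ D, if δ.card = l then
        (idx (δ : Set (Fin n → ℤ)) : ℝ) / ∏ a ∈ δ, f a else 0)) := by
    refine tendsto_finsetSum _ fun δ hδ => ?_
    have h2 := (h n δ (hD δ hδ).1 f (hD δ hδ).2.2).2
    by_cases hc : δ.card = l
    · rw [if_pos hc]
      have h3 : ∀ ε : ℝ, ε ^ (l - δ.card) = 1 := fun ε => by rw [hc, Nat.sub_self, pow_zero]
      simp only [h3, one_mul]
      exact h2
    · rw [if_neg hc]
      have hlt : 0 < l - δ.card := Nat.sub_pos_of_lt (lt_of_le_of_ne (hD δ hδ).2.1 hc)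
      have h4 : Tendsto (fun ε : ℝ => ε ^ (l - δ.card)) (𝓝[>] 0) (𝓝 0) := by
        have h5 : Tendsto (fun ε : ℝ => ε ^ (l - δ.card)) (𝓝 0) (𝓝 (0 ^ (l - δ.card))) :=
          (continuous_pow _).tendsto 0
        rw [zero_pow hlt.ne'] at h5
        exact h5.mono_left nhdsWithin_le_nhds
      have h6 := h4.mul h2
      rwa [zero_mul] at h6
  rw [Finset.sum_filter]
  refine hlim.congr' ?_
  filter_upwards [self_mem_nhdsWithin] with ε hε
  rw [hsum ε hε, Finset.mul_sum]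
  refine Finset.sum_congr rfl fun δ hδ => ?_
  rw [← mul_assoc, ← pow_add, Nat.sub_add_cancel (hD δ hδ).2.1]

end Mono.CI.P2
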